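import Mathlib

/-!
Series of monomials `c i * z ^ a i * conj z ^ b i` which converge on the open unit disc: they may be
differentiated term by term.
-/

set_option autoImplicit false

open Set Filter Topology
open scoped ComplexConjugate

namespace Pool.Agent.W648.HP

variable {ι : Type}

/-- The series `∑ c i * z ^ a i * conj z ^ b i` converges on the open unit disc. -/
def Fam (c : ι → ℂ) (a b : ι → ℕ) : Prop :=
  ∀ r : ℝ, 0 < r → r < 1 → Summable fun i => ‖c i‖ * r ^ (a i + b i)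

/-- The sum of the series. -/
noncomputable def ser (c : ι → ℂ) (a b : ι → ℕ) (z : ℂ) : ℂ :=
  ∑' i, c i * (z ^ a i * (conj z) ^ b i)

theorem Fam.summable {c : ι → ℂ} {a b : ι → ℕ} (h : Fam c a b) {z : ℂ} (hz : ‖z‖ < 1) :
    Summable fun i => c i * (z ^ a i * (conj z) ^ b i) := by
  obtain ⟨r, hr1, hr2⟩ := exists_between hz
  have hr0 : 0 < r := lt_of_le_of_lt (norm_nonneg _) hr1
  refine Summable.of_norm_bounded (h r hr0 hr2) fun i => ?_
  rw [norm_mul, norm_mul, norm_pow, norm_pow, Complex.norm_conj, ← pow_add]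
  exact mul_le_mul_of_nonneg_left (pow_le_pow_left₀ (norm_nonneg _) hr1.le _) (norm_nonneg _)

theorem bound_mul_pow {q : ℝ} (hq0 : 0 < q) (hq : q < 1) :
    ∃ K : ℝ, 0 < K ∧ ∀ k : ℕ, (k : ℝ) * q ^ k ≤ K := by
  have h1 : Tendsto (fun k : ℕ => (k : ℝ) * q ^ k) atTop (𝓝 0) :=
    tendsto_self_mul_const_pow_of_lt_one hq0.le hq
  obtain ⟨K, hK⟩ := h1.bddAbove_range
  refine ⟨max K 1, lt_max_of_lt_right one_pos, fun k => le_max_of_le_left (hK ⟨k, rfl⟩)⟩

theorem Fam.aux {c : ι → ℂ} {a b : ι → ℕ} (h : Fam c a b) (d e : ι → ℕ) (f : ι → ℕ)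
    (hf : ∀ i, f i ≤ a i + b i) (hde : ∀ i, f i = 0 ∨ d i + e i + 1 = a i + b i) :
    Fam (fun i => c i * f i) d e := by
  intro r hr0 hr1
  obtain ⟨s, hs1, hs2⟩ := exists_between hr1
  have hs0 : 0 < s := hr0.trans hs1
  obtain ⟨K, hK0, hK⟩ := bound_mul_pow (q := r / s) (by positivity) (by rwa [div_lt_one hs0])
  refine Summable.of_nonneg_of_le (fun i => by positivity) (fun i => ?_)
    ((h s hs0 hs2).mul_left (K / r))
  show ‖c i * (f i : ℂ)‖ * r ^ (d i + e i) ≤ K / r * (‖c i‖ * s ^ (a i + b i))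
  rcases hde i with h0 | h1
  · rw [h0]
    simp only [Nat.cast_zero, mul_zero, norm_zero, zero_mul]
    positivity
  · have h2 : (f i : ℝ) ≤ (a i + b i : ℕ) := by exact_mod_cast hf i
    have h3 : r ^ (a i + b i) = r ^ (d i + e i) * r := by rw [← h1, pow_succ]
    have h4 : (f i : ℝ) * r ^ (a i + b i) ≤ K * s ^ (a i + b i) := by
      calc (f i : ℝ) * r ^ (a i + b i) ≤ (a i + b i : ℕ) * r ^ (a i + b i) :=
            mul_le_mul_of_nonneg_right h2 (by positivity)
        _ = ((a i + b i : ℕ) * (r / s) ^ (a i + b i)) * s ^ (a i + b i) := by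
            rw [mul_assoc, ← mul_pow, div_mul_cancel₀ _ hs0.ne']
        _ ≤ K * s ^ (a i + b i) := mul_le_mul_of_nonneg_right (hK _) (by positivity)
    have h5 : (f i : ℝ) * r ^ (d i + e i) ≤ K / r * s ^ (a i + b i) := by
      rw [h3] at h4
      rw [div_mul_eq_mul_div, le_div_iff₀ hr0]
      linarith
    rw [norm_mul, Complex.norm_natCast]
    calc ‖c i‖ * (f i : ℝ) * r ^ (d i + e i) = ‖c i‖ * ((f i : ℝ) * r ^ (d i + e i)) := by ring
      _ ≤ ‖c i‖ * (K / r * s ^ (a i + b i)) := mul_le_mul_of_nonneg_left h5 (norm_nonneg _)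
      _ = K / r * (‖c i‖ * s ^ (a i + b i)) := by ring

theorem Fam.dz {c : ι → ℂ} {a b : ι → ℕ} (h : Fam c a b) :
    Fam (fun i => c i * a i) (fun i => a i - 1) b :=
  h.aux _ _ a (fun i => Nat.le_add_right _ _) fun i => by omega

theorem Fam.dzb {c : ι → ℂ} {a b : ι → ℕ} (h : Fam c a b) :
    Fam (fun i => c i * b i) a (fun i => b i - 1) :=
  h.aux _ _ b (fun i => Nat.le_add_left _ _) fun i => by omega

theorem hasFDerivAt_term (c : ℂ) (a b : ℕ) (z : ℂ) :
    HasFDerivAt (fun z : ℂ => c * (z ^ a * (conj z) ^ b))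
      ((c * a * (z ^ (a - 1) * (conj z) ^ b)) • (ContinuousLinearMap.id ℝ ℂ) +
        (c * b * (z ^ a * (conj z) ^ (b - 1))) • (Complex.conjCLE : ℂ →L[ℝ] ℂ)) z := by
  have h1 : HasFDerivAt (fun z : ℂ => z) (ContinuousLinearMap.id ℝ ℂ) z := hasFDerivAt_id z
  have h2 : HasFDerivAt (fun z : ℂ => conj z) (Complex.conjCLE : ℂ →L[ℝ] ℂ) z :=
    Complex.conjCLE.hasFDerivAt
  have h3 := ((h1.pow a).mul (h2.pow b)).const_mul c
  refine h3.congr_fderiv ?_
  refine ContinuousLinearMap.ext fun v => ?_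
  simp
  ring

theorem Fam.hasFDerivAt {c : ι → ℂ} {a b : ι → ℕ} (h : Fam c a b) {z : ℂ} (hz : ‖z‖ < 1) :
    HasFDerivAt (ser c a b)
      ((ser (fun i => c i * a i) (fun i => a i - 1) b z) • (ContinuousLinearMap.id ℝ ℂ) +
        (ser (fun i => c i * b i) a (fun i => b i - 1) z) • (Complex.conjCLE : ℂ →L[ℝ] ℂ)) z := by
  obtain ⟨r, hr1, hr2⟩ := exists_between hz
  have hr0 : 0 < r := lt_of_le_of_lt (norm_nonneg _) hr1
  have hzs : z ∈ Metric.ball (0 : ℂ) r := by simpa using hr1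
  have hu := (h.dz r hr0 hr2).add (h.dzb r hr0 hr2)
  have key := hasFDerivAt_tsum_of_isPreconnected (𝕜 := ℝ)
    (f := fun i => fun z : ℂ => c i * (z ^ a i * (conj z) ^ b i))
    (f' := fun i z => (c i * a i * (z ^ (a i - 1) * (conj z) ^ b i)) •
      (ContinuousLinearMap.id ℝ ℂ) +
        (c i * b i * (z ^ a i * (conj z) ^ (b i - 1))) • (Complex.conjCLE : ℂ →L[ℝ] ℂ))
    hu Metric.isOpen_ball (convex_ball (0 : ℂ) r).isPreconnected
    (fun i x _ => hasFDerivAt_term (c i) (a i) (b i) x) (fun i x hx => ?_) hzs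
    (h.summable hz) hzs
  · refine key.congr_fderiv ?_
    have h1 := (h.dz.summable hz).hasSum.smul_const (ContinuousLinearMap.id ℝ ℂ)
    have h2 := (h.dzb.summable hz).hasSum.smul_const (Complex.conjCLE : ℂ →L[ℝ] ℂ)
    exact (h1.add h2).tsum_eq
  · have hx' : ‖x‖ ≤ r := by
      have := Metric.mem_ball.1 hx
      rw [dist_zero_right] at this
      exact this.le
    refine (norm_add_le _ _).trans (add_le_add ?_ ?_)
    · rw [norm_smul]
      have h1 : ‖(ContinuousLinearMap.id ℝ ℂ)‖ ≤ 1 := ContinuousLinearMap.norm_id_le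
      have h2 : ‖c i * a i * (x ^ (a i - 1) * (conj x) ^ b i)‖ ≤
          ‖c i * (a i : ℂ)‖ * r ^ (a i - 1 + b i) := by
        rw [norm_mul, norm_mul (x ^ _), norm_pow, norm_pow, Complex.norm_conj, ← pow_add]
        exact mul_le_mul_of_nonneg_left (pow_le_pow_left₀ (norm_nonneg _) hx' _) (norm_nonneg _)
      calc _ ≤ ‖c i * a i * (x ^ (a i - 1) * (conj x) ^ b i)‖ * 1 :=
            mul_le_mul_of_nonneg_left h1 (norm_nonneg _)
        _ ≤ _ := by rw [mul_one]; exact h2
    · rw [norm_smul]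
      have h1 : ‖(Complex.conjCLE : ℂ →L[ℝ] ℂ)‖ ≤ 1 := by
        refine ContinuousLinearMap.opNorm_le_bound _ zero_le_one fun v => ?_
        simp
      have h2 : ‖c i * b i * (x ^ a i * (conj x) ^ (b i - 1))‖ ≤
          ‖c i * (b i : ℂ)‖ * r ^ (a i + (b i - 1)) := by
        rw [norm_mul, norm_mul (x ^ _), norm_pow, norm_pow, Complex.norm_conj, ← pow_add]
        exact mul_le_mul_of_nonneg_left (pow_le_pow_left₀ (norm_nonneg _) hx' _) (norm_nonneg _)
      calc _ ≤ ‖c i * b i * (x ^ a i * (conj x) ^ (b i - 1))‖ * 1 :=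
            mul_le_mul_of_nonneg_left h1 (norm_nonneg _)
        _ ≤ _ := by rw [mul_one]; exact h2

theorem Fam.continuousOn {c : ι → ℂ} {a b : ι → ℕ} (h : Fam c a b) :
    ContinuousOn (ser c a b) (Metric.ball 0 1) := fun z hz => by
  have hz' : ‖z‖ < 1 := by simpa using hz
  exact (h.hasFDerivAt hz').continuousAt.continuousWithinAt

theorem Fam.contDiffOn (n : ℕ) : ∀ {c : ι → ℂ} {a b : ι → ℕ}, Fam c a b →
    ContDiffOn ℝ n (ser c a b) (Metric.ball 0 1) := by
  induction n with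
  | zero =>
    intro c a b h
    rw [Nat.cast_zero, contDiffOn_zero]
    exact h.continuousOn
  | succ n ih =>
    intro c a b h
    rw [Nat.cast_succ, contDiffOn_succ_iff_fderiv_of_isOpen Metric.isOpen_ball]
    refine ⟨fun z hz => ?_, fun hn => by simp at hn, ?_⟩
    · have hz' : ‖z‖ < 1 := by simpa using hz
      exact (h.hasFDerivAt hz').differentiableAt.differentiableWithinAt
    · have h1 : ContDiffOn ℝ n (fun z =>
          ((ser (fun i => c i * a i) (fun i => a i - 1) b z) • (ContinuousLinearMap.id ℝ ℂ) +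
          (ser (fun i => c i * b i) a (fun i => b i - 1) z) • (Complex.conjCLE : ℂ →L[ℝ] ℂ)))
          (Metric.ball 0 1) :=
        ((ih h.dz).smul contDiffOn_const).add ((ih h.dzb).smul contDiffOn_const)
      refine h1.congr fun z hz => ?_
      have hz' : ‖z‖ < 1 := by simpa using hz
      exact (h.hasFDerivAt hz').fderiv

end Pool.Agent.W648.HP
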