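import Pool.Agent.W743.HP.Stm
import Pool.Agent.W648.HP.Ser

/-!
The Laplacian of the series `ue (0, 0) + TT m` (part HP-LAPL).
-/

set_option autoImplicit false

open Set Filter Topology
open scoped ComplexConjugate

namespace Pool.Agent.W648.HP

open Pool.Agent.W743.HP

/-- The real derivative of `A` at `z` is `v ↦ p * v + q * conj v`. -/
def HD (A : ℂ → ℂ) (p q z : ℂ) : Prop :=
  HasFDerivAt A (p • (ContinuousLinearMap.id ℝ ℂ) + q • (Complex.conjCLE : ℂ →L[ℝ] ℂ)) z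

theorem HD.sub {A B : ℂ → ℂ} {p q p' q' z : ℂ} (h : HD A p q z) (h' : HD B p' q' z) :
    HD (fun w => A w - B w) (p - p') (q - q') z := by
  refine (HasFDerivAt.fun_sub h h').congr_fderiv ?_
  refine ContinuousLinearMap.ext fun v => ?_
  simp
  ring

theorem HD.const_add {A : ℂ → ℂ} {p q z : ℂ} (h : HD A p q z) (c : ℂ) :
    HD (fun w => c + A w) p q z :=
  HasFDerivAt.const_add c h

theorem lap_re {A P R : ℂ → ℂ} {z P1 P2 R1 R2 : ℂ}
    (hA : ∀ w ∈ Metric.ball (0 : ℂ) 1, HD A (P w) (R w) w) (hz : z ∈ Metric.ball (0 : ℂ) 1)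
    (hP : HD P P1 P2 z) (hR : HD R R1 R2 z) :
    lap (fun w => (A w).re) z = (2 * (P2 + R1)).re := by
  have hnhds : Metric.ball (0 : ℂ) 1 ∈ 𝓝 z := Metric.isOpen_ball.mem_nhds hz
  have h0 : ∀ w ∈ Metric.ball (0 : ℂ) 1, ∀ v : ℂ,
      fderiv ℝ (fun w => (A w).re) w v = (P w * v + R w * conj v).re := by
    intro w hw v
    have h1 : HasFDerivAt (fun w => (A w).re) (Complex.reCLM.comp
      (P w • (ContinuousLinearMap.id ℝ ℂ) + R w • (Complex.conjCLE : ℂ →L[ℝ] ℂ))) w :=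
      Complex.reCLM.hasFDerivAt.comp w (hA w hw)
    rw [h1.fderiv]
    simp
  have hfd : ∀ (a b v : ℂ), fderiv ℝ (fun w => (P w * a + R w * b).re) z v =
      ((P1 * v + P2 * conj v) * a + (R1 * v + R2 * conj v) * b).re := by
    intro a b v
    have h1 : HasFDerivAt (fun w => P w * a + R w * b)
      (a • (P1 • (ContinuousLinearMap.id ℝ ℂ) + P2 • (Complex.conjCLE : ℂ →L[ℝ] ℂ)) +
        b • (R1 • (ContinuousLinearMap.id ℝ ℂ) + R2 • (Complex.conjCLE : ℂ →L[ℝ] ℂ))) z :=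
      (HasFDerivAt.mul_const hP a).add (HasFDerivAt.mul_const hR b)
    have h2 := Complex.reCLM.hasFDerivAt.comp z h1
    have h3 : HasFDerivAt (fun w => (P w * a + R w * b).re) (Complex.reCLM.comp
      (a • (P1 • (ContinuousLinearMap.id ℝ ℂ) + P2 • (Complex.conjCLE : ℂ →L[ℝ] ℂ)) +
        b • (R1 • (ContinuousLinearMap.id ℝ ℂ) + R2 • (Complex.conjCLE : ℂ →L[ℝ] ℂ)))) z := h2
    rw [h3.fderiv]
    simp
    ring
  have e1 : (fun w => fderiv ℝ (fun w => (A w).re) w 1) =ᶠ[𝓝 z]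
      fun w => (P w * 1 + R w * 1).re := by
    filter_upwards [hnhds] with w hw
    rw [h0 w hw 1]
    simp
  have e2 : (fun w => fderiv ℝ (fun w => (A w).re) w Complex.I) =ᶠ[𝓝 z]
      fun w => (P w * Complex.I + R w * (-Complex.I)).re := by
    filter_upwards [hnhds] with w hw
    rw [h0 w hw Complex.I, Complex.conj_I]
  unfold lap
  rw [e1.fderiv_eq, e2.fderiv_eq, hfd, hfd, ← Complex.add_re]
  congr 1
  rw [map_one, Complex.conj_I]
  linear_combination (P1 - P2 - R1 + R2) * Complex.I_mul_I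

theorem evE_ue {z : ℂ} (hz : ‖z‖ ≤ 1) (i : ℕ × ℕ) :
    evE z (ue i) = ‖z‖ ^ (2 * i.2) * (z ^ (4 * i.1)).re := by
  unfold evE
  rw [lift_ue, if_pos hz]

theorem hasSum_evE {z : ℂ} (hz : ‖z‖ ≤ 1) (m : E) :
    HasSum (fun i : ℕ × ℕ => m i * (‖z‖ ^ (2 * i.2) * (z ^ (4 * i.1)).re)) (evE z m) := by
  unfold evE
  refine (lift_hasSum _ 1 (norm_evE_aux z) m).congr_fun fun i => ?_
  rw [if_pos hz, smul_eq_mul]

/-- The coefficient of `TT`. -/
noncomputable def kap (i : ℕ × ℕ) : ℝ := 1 / ((4 * i.1 + i.2 + 1) * (i.2 + 1))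

theorem kap_nonneg (i : ℕ × ℕ) : 0 ≤ kap i := by unfold kap; positivity

theorem kap_le_one (i : ℕ × ℕ) : kap i ≤ 1 := by
  unfold kap
  rw [div_le_one (by positivity)]
  have h3 : (0 : ℝ) ≤ i.1 := Nat.cast_nonneg _
  have h4 : (0 : ℝ) ≤ i.2 := Nat.cast_nonneg _
  nlinarith [mul_nonneg h3 h4, mul_nonneg h4 h4]

theorem hasSum_evE_TT {z : ℂ} (hz : ‖z‖ ≤ 1) (m : E) :
    HasSum (fun i : ℕ × ℕ => m i * (kap i * ((1 / 2 : ℝ) ^ (i.2 + 1) * (z ^ (4 * i.1)).re -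
      ‖z‖ ^ (2 * (i.2 + 1)) * (z ^ (4 * i.1)).re))) (evE z (TT m)) := by
  have h1 := (lift_hasSum _ 2 norm_TT_aux m).mapL (evE z)
  refine h1.congr_fun fun i => ?_
  rw [map_smul, map_smul, map_sub, map_smul, evE_ue hz, evE_ue hz]
  simp only [smul_eq_mul, kap, Nat.mul_zero, pow_zero, one_mul]

/-- Coefficients of the first series. -/
noncomputable def c1 (m : E) (i : ℕ × ℕ) : ℂ := ((m i * (kap i * (1 / 2 : ℝ) ^ (i.2 + 1)) : ℝ) : ℂ)

/-- Coefficients of the second series. -/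
noncomputable def c2 (m : E) (i : ℕ × ℕ) : ℂ := ((m i * kap i : ℝ) : ℂ)

theorem fam_of_le (m : E) (c : ℕ × ℕ → ℂ) (a b : ℕ × ℕ → ℕ) (h : ∀ i, ‖c i‖ ≤ |m i|) :
    Fam c a b := by
  intro r hr0 hr1
  refine Summable.of_nonneg_of_le (fun i => by positivity) (fun i => ?_) (L1.summable m)
  calc ‖c i‖ * r ^ (a i + b i) ≤ |m i| * 1 :=
        mul_le_mul (h i) (pow_le_one₀ hr0.le hr1.le) (by positivity) (abs_nonneg _)
    _ = |m i| := mul_one _

theorem fam1 (m : E) : Fam (c1 m) (fun i => 4 * i.1) (fun _ => 0) := by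
  refine fam_of_le m _ _ _ fun i => ?_
  unfold c1
  rw [Complex.norm_real, Real.norm_eq_abs, abs_mul]
  have h1 : |kap i * (1 / 2 : ℝ) ^ (i.2 + 1)| ≤ 1 := by
    rw [abs_of_nonneg (mul_nonneg (kap_nonneg i) (by positivity))]
    exact mul_le_one₀ (kap_le_one i) (by positivity) (pow_le_one₀ (by norm_num) (by norm_num))
  calc |m i| * |kap i * (1 / 2 : ℝ) ^ (i.2 + 1)| ≤ |m i| * 1 :=
        mul_le_mul_of_nonneg_left h1 (abs_nonneg _)
    _ = |m i| := mul_one _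

theorem fam2 (m : E) : Fam (c2 m) (fun i => 4 * i.1 + i.2 + 1) (fun i => i.2 + 1) := by
  refine fam_of_le m _ _ _ fun i => ?_
  unfold c2
  rw [Complex.norm_real, Real.norm_eq_abs, abs_mul]
  have h1 : |kap i| ≤ 1 := by
    rw [abs_of_nonneg (kap_nonneg i)]
    exact kap_le_one i
  calc |m i| * |kap i| ≤ |m i| * 1 :=
        mul_le_mul_of_nonneg_left h1 (abs_nonneg _)
    _ = |m i| := mul_one _

theorem mono_eq (z : ℂ) (n j : ℕ) :
    z ^ (4 * n + j) * (conj z) ^ j = ((‖z‖ ^ (2 * j) : ℝ) : ℂ) * z ^ (4 * n) := by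
  rw [pow_add, mul_assoc, ← mul_pow, Complex.mul_conj']
  push_cast
  rw [← pow_mul, mul_comm]

theorem re_mono (z : ℂ) (x : ℝ) (n j : ℕ) :
    (((x : ℝ) : ℂ) * (z ^ (4 * n + j) * (conj z) ^ j)).re =
      x * (‖z‖ ^ (2 * j) * (z ^ (4 * n)).re) := by
  rw [mono_eq, Complex.re_ofReal_mul, Complex.re_ofReal_mul]

/-- The function of the theorem as the real part of a series of monomials. -/
theorem evE_eq {z : ℂ} (hz : ‖z‖ < 1) (m : E) : evE z (ue (0, 0) + TT m) =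
    (1 + (ser (c1 m) (fun i => 4 * i.1) (fun _ => 0) z -
      ser (c2 m) (fun i => 4 * i.1 + i.2 + 1) (fun i => i.2 + 1) z)).re := by
  rw [map_add, evE_ue hz.le, Complex.add_re, Complex.one_re]
  simp only [Nat.mul_zero, pow_zero, one_mul, Complex.one_re]
  congr 1
  have h1 := (((fam1 m).summable hz).hasSum.sub ((fam2 m).summable hz).hasSum)
  have h2 := h1.mapL Complex.reCLM
  refine (hasSum_evE_TT hz.le m).unique ?_
  refine HasSum.congr_fun h2 fun i => ?_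
  rw [Complex.reCLM_apply, Complex.sub_re]
  have e1 := re_mono z (m i * (kap i * (1 / 2 : ℝ) ^ (i.2 + 1))) i.1 0
  have e2 := re_mono z (m i * kap i) i.1 (i.2 + 1)
  unfold c1 c2
  simp only [Nat.mul_zero, Nat.add_zero, pow_zero, one_mul] at e1
  rw [pow_zero, e1, add_assoc, e2]
  ring

theorem kap_mul (m : E) (i : ℕ × ℕ) :
    c2 m i * ((4 * i.1 + i.2 + 1 : ℕ) : ℂ) * ((i.2 + 1 : ℕ) : ℂ) = ((m i : ℝ) : ℂ) := by
  unfold c2 kap
  have h1 : ((4 * i.1 + i.2 + 1 : ℕ) : ℂ) ≠ 0 := Nat.cast_ne_zero.2 (by omega)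
  have h2 : ((i.2 + 1 : ℕ) : ℂ) ≠ 0 := Nat.cast_ne_zero.2 (by omega)
  push_cast at h1 h2 ⊢
  field_simp

theorem ser_m {z : ℂ} (hz : ‖z‖ < 1) (m : E) :
    (ser (fun i => c2 m i * ((4 * i.1 + i.2 + 1 : ℕ) : ℂ) * ((i.2 + 1 : ℕ) : ℂ))
      (fun i => 4 * i.1 + i.2 + 1 - 1) (fun i => i.2 + 1 - 1) z).re = evE z m := by
  have hf : Fam (fun i => c2 m i * ((4 * i.1 + i.2 + 1 : ℕ) : ℂ) * ((i.2 + 1 : ℕ) : ℂ))
      (fun i => 4 * i.1 + i.2 + 1 - 1) (fun i => i.2 + 1 - 1) := (fam2 m).dz.dzb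
  have h2 := (hf.summable hz).hasSum.mapL Complex.reCLM
  refine HasSum.unique h2 ?_
  refine (hasSum_evE hz.le m).congr_fun fun i => ?_
  rw [Complex.reCLM_apply, kap_mul, Nat.add_sub_cancel, Nat.add_sub_cancel, re_mono]

theorem lapl : S_LAPL := by
  intro m
  constructor
  · have h1 : ContDiffOn ℝ 2 (fun z => (1 + (ser (c1 m) (fun i => 4 * i.1) (fun _ => 0) z -
      ser (c2 m) (fun i => 4 * i.1 + i.2 + 1) (fun i => i.2 + 1) z)).re)
      (Metric.ball (0 : ℂ) 1) := by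
      have h2 : ContDiffOn ℝ 2 (fun z => 1 + (ser (c1 m) (fun i => 4 * i.1) (fun _ => 0) z -
        ser (c2 m) (fun i => 4 * i.1 + i.2 + 1) (fun i => i.2 + 1) z)) (Metric.ball (0 : ℂ) 1) :=
        contDiffOn_const.add (((fam1 m).contDiffOn 2).sub ((fam2 m).contDiffOn 2))
      exact Complex.reCLM.contDiff.comp_contDiffOn h2
    refine h1.congr fun z hz => ?_
    exact evE_eq (by simpa using hz) m
  · intro z hz
    have hz' : ‖z‖ < 1 := by simpa using hz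
    have hnhds : Metric.ball (0 : ℂ) 1 ∈ 𝓝 z := Metric.isOpen_ball.mem_nhds hz
    have hA : ∀ w ∈ Metric.ball (0 : ℂ) 1, HD
        (fun w => 1 + (ser (c1 m) (fun i => 4 * i.1) (fun _ => 0) w -
          ser (c2 m) (fun i => 4 * i.1 + i.2 + 1) (fun i => i.2 + 1) w)) _ _ w := fun w hw => by
      have hw' : ‖w‖ < 1 := by simpa using hw
      exact HD.const_add (HD.sub ((fam1 m).hasFDerivAt hw') ((fam2 m).hasFDerivAt hw')) 1
    have hP := HD.sub ((fam1 m).dz.hasFDerivAt hz') ((fam2 m).dz.hasFDerivAt hz')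
    have hR := HD.sub ((fam1 m).dzb.hasFDerivAt hz') ((fam2 m).dzb.hasFDerivAt hz')
    have key := lap_re hA hz hP hR
    have hcongr : lap (fun z => evE z (ue (0, 0) + TT m)) z =
        lap (fun w => (1 + (ser (c1 m) (fun i => 4 * i.1) (fun _ => 0) w -
          ser (c2 m) (fun i => 4 * i.1 + i.2 + 1) (fun i => i.2 + 1) w)).re) z := by
      have h1 : (fun z => evE z (ue (0, 0) + TT m)) =ᶠ[𝓝 z]
          fun w => (1 + (ser (c1 m) (fun i => 4 * i.1) (fun _ => 0) w -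
          ser (c2 m) (fun i => 4 * i.1 + i.2 + 1) (fun i => i.2 + 1) w)).re := by
        filter_upwards [hnhds] with w hw
        exact evE_eq (by simpa using hw) m
      have h2 := h1.fderiv (𝕜 := ℝ)
      unfold lap
      have e1 : ∀ v : ℂ, (fun w => fderiv ℝ (fun z => evE z (ue (0, 0) + TT m)) w v) =ᶠ[𝓝 z]
          fun w => fderiv ℝ (fun w => (1 + (ser (c1 m) (fun i => 4 * i.1) (fun _ => 0) w -
          ser (c2 m) (fun i => 4 * i.1 + i.2 + 1) (fun i => i.2 + 1) w)).re) w v := fun v => by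
        filter_upwards [h2] with w hw
        rw [hw]
      rw [(e1 1).fderiv_eq, (e1 Complex.I).fderiv_eq]
    rw [hcongr, key]
    have e0 : ∀ (c : ℕ × ℕ → ℂ) (a b : ℕ × ℕ → ℕ), (∀ i, c i = 0) → ser c a b z = 0 := by
      intro c a b h
      unfold ser
      simp [h]
    have z1 : ser (fun i => c1 m i * ((4 * i.1 : ℕ) : ℂ) * ((0 : ℕ) : ℂ))
        (fun i => 4 * i.1 - 1) (fun _ => 0 - 1) z = 0 := e0 _ _ _ (fun i => by simp)
    have z2 : ser (fun i => c1 m i * ((0 : ℕ) : ℂ) * ((4 * i.1 : ℕ) : ℂ))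
        (fun i => 4 * i.1 - 1) (fun _ => 0 - 1) z = 0 := e0 _ _ _ (fun i => by simp)
    have e3 : ser (fun i => c2 m i * ((i.2 + 1 : ℕ) : ℂ) * ((4 * i.1 + i.2 + 1 : ℕ) : ℂ))
        (fun i => 4 * i.1 + i.2 + 1 - 1) (fun i => i.2 + 1 - 1) z =
        ser (fun i => c2 m i * ((4 * i.1 + i.2 + 1 : ℕ) : ℂ) * ((i.2 + 1 : ℕ) : ℂ))
      (fun i => 4 * i.1 + i.2 + 1 - 1) (fun i => i.2 + 1 - 1) z := by
      have : (fun i : ℕ × ℕ => c2 m i * ((i.2 + 1 : ℕ) : ℂ) * ((4 * i.1 + i.2 + 1 : ℕ) : ℂ)) =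
          fun i => c2 m i * ((4 * i.1 + i.2 + 1 : ℕ) : ℂ) * ((i.2 + 1 : ℕ) : ℂ) :=
        funext fun i => mul_right_comm _ _ _
      rw [this]
    rw [z1, z2, e3, ← ser_m hz' m]
    generalize ser (fun i => c2 m i * ((4 * i.1 + i.2 + 1 : ℕ) : ℂ) * ((i.2 + 1 : ℕ) : ℂ))
      (fun i => 4 * i.1 + i.2 + 1 - 1) (fun i => i.2 + 1 - 1) z = X
    have e5 : (2 * (0 - X + (0 - X))) = ((-4 : ℝ) : ℂ) * X := by push_cast; ring
    rw [e5, Complex.re_ofReal_mul]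
    ring

end Pool.Agent.W648.HP
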